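import Mathlib
import Pool.Agent.X204.L1

/-!
# MP_890ea4 : distributional chaos does not imply `m_n`-distributional chaos

On `ℓ₁(ℕ × ℕ)` let `T e_{i,k} = w_{i,k+1} e_{i,k+1}` for `k < N_i` and `T e_{i,k} = 0` otherwise,
where `w_{i,1} ⋯ w_{i,k} = W_i(k) = 1 + min(k, K_i) / J_i`, `J_i = 64^(i²)`, `K_i = 4^i J_i`,
`N_i = 16^i J_i`.  For `N_n < j ≤ J_{n+1}` one has `‖T^j‖ ≤ 2`, so `T^j x → 0` for all `x` along
these `j`, in particular along `j = J_n`; for `z = ∑ 2^{-i} e_{i,0}` and `K_n ≤ j ≤ N_n` one has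
`‖T^j z‖ ≥ 2^n`.
-/

namespace Pool.Agent.Results.MP_890ea4_an.NotMnChaotic

open Filter Topology
open scoped ENNReal

/-! ### Definitions -/

/-- The class `R`: increasing sequences in `[1, ∞)` with `liminf m_n / n > 0`. -/
def ClassR (m : ℕ → ℝ) : Prop :=
  StrictMono m ∧ (∀ n, 1 ≤ m n) ∧ 0 < liminf (fun n : ℕ => ENNReal.ofReal (m n / n)) atTop

/-- The lower `m_n`-density `liminf |A ∩ [1, m_n]| / n`. -/
noncomputable def lowerDensity (m : ℕ → ℝ) (A : Set ℕ) : ℝ≥0∞ :=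
  liminf (fun n : ℕ => (({j | j ∈ A ∧ 1 ≤ j ∧ (j : ℝ) ≤ m n}.ncard : ℝ≥0∞)) / n) atTop

/-- `T` is `m_n`-distributionally chaotic. -/
def DistChaotic {𝕜 X : Type} [RCLike 𝕜] [NormedAddCommGroup X] [NormedSpace 𝕜 X] (m : ℕ → ℝ)
    (T : X →L[𝕜] X) : Prop :=
  ∃ (S : Set X) (σ : ℝ), ¬ S.Countable ∧ 0 < σ ∧ ∀ x ∈ S, ∀ y ∈ S, x ≠ y →
    lowerDensity m {j | dist ((T ^ j) x) ((T ^ j) y) < σ} = 0 ∧
    ∀ ε : ℝ, 0 < ε → lowerDensity m {j | ε ≤ dist ((T ^ j) x) ((T ^ j) y)} = 0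

/-! ### The numbers -/

/-- `J_n = 64^(n²)`. -/
def J (n : ℕ) : ℕ := 64 ^ (n ^ 2)
/-- `K_n = 4^n J_n`. -/
def K (n : ℕ) : ℕ := 4 ^ n * J n
/-- `N_n = 16^n J_n`. -/
def N (n : ℕ) : ℕ := 16 ^ n * J n

theorem J_pos (n : ℕ) : 0 < J n := pow_pos (by norm_num) _

theorem J_succ (n : ℕ) : J (n + 1) = 64 ^ (2 * n + 1) * J n := by
  unfold J; rw [← pow_add]; congr 1; ring

theorem N_lt_J (n : ℕ) : N n < J (n + 1) := by
  rw [J_succ, N]
  refine Nat.mul_lt_mul_of_pos_right ?_ (J_pos n)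
  calc 16 ^ n ≤ 64 ^ n := Nat.pow_le_pow_left (by norm_num) n
    _ < 64 ^ (2 * n + 1) := Nat.pow_lt_pow_right (by norm_num) (by omega)

theorem J_strictMono : StrictMono J := by
  intro a b h
  exact Nat.pow_lt_pow_right (by norm_num) (Nat.pow_lt_pow_left h (by norm_num))

theorem K_mul (n : ℕ) : K n * 4 ^ n = N n := by
  unfold K N
  rw [mul_right_comm, ← mul_pow]
  norm_num

theorem N_mul (n : ℕ) : N n * 4 ^ n ≤ J (n + 1) := by
  rw [J_succ, N, mul_right_comm, ← mul_pow]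
  refine Nat.mul_le_mul_right _ ?_
  exact Nat.pow_le_pow_right (by norm_num) (by omega)

theorem J_le_N (n : ℕ) : J n ≤ N n := Nat.le_mul_of_pos_left _ (pow_pos (by norm_num) _)

theorem K_le_N (n : ℕ) : K n ≤ N n := by
  rw [← K_mul]; exact Nat.le_mul_of_pos_right _ (pow_pos (by norm_num) _)

theorem N_mono : Monotone N := monotone_nat_of_le_succ fun n => (N_lt_J n).le.trans (J_le_N _)

theorem lt_J (n : ℕ) : n < J n := by
  have h1 : n ≤ n ^ 2 := by nlinarith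
  calc n < 2 ^ n := Nat.lt_two_pow_self
    _ ≤ 64 ^ n := Nat.pow_le_pow_left (by norm_num) n
    _ ≤ 64 ^ (n ^ 2) := Nat.pow_le_pow_right (by norm_num) h1

/-- The products of weights. -/
noncomputable def W (i k : ℕ) : ℝ := 1 + ((min k (K i) : ℕ) : ℝ) / (J i : ℝ)

theorem one_le_W (i k : ℕ) : 1 ≤ W i k := by
  unfold W
  have : 0 ≤ ((min k (K i) : ℕ) : ℝ) / (J i : ℝ) := by positivity
  linarith

theorem W_pos (i k : ℕ) : 0 < W i k := zero_lt_one.trans_le (one_le_W i k)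

theorem W_zero (i : ℕ) : W i 0 = 1 := by unfold W; simp

theorem W_add_le {i k j : ℕ} (hj : j ≤ J i) : W i (k + j) ≤ 2 * W i k := by
  have hJ : (0 : ℝ) < J i := by exact_mod_cast J_pos i
  have h1 : min (k + j) (K i) ≤ min k (K i) + j := by omega
  have h2 : ((min (k + j) (K i) : ℕ) : ℝ) ≤ ((min k (K i) : ℕ) : ℝ) + j := by exact_mod_cast h1
  have h3 : (j : ℝ) ≤ J i := by exact_mod_cast hj
  have h4 : W i (k + j) ≤ W i k + 1 := by
    unfold W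
    have : ((min (k + j) (K i) : ℕ) : ℝ) / J i ≤ ((min k (K i) : ℕ) : ℝ) / J i + 1 := by
      rw [div_add_one hJ.ne', div_le_div_iff_of_pos_right hJ]
      linarith
    linarith
  linarith [one_le_W i k]

theorem W_large {i k : ℕ} (hk : K i ≤ k) : (4 : ℝ) ^ i ≤ W i k := by
  have hJ : (0 : ℝ) < J i := by exact_mod_cast J_pos i
  unfold W
  rw [min_eq_right hk, K]
  push_cast
  rw [mul_div_assoc, div_self hJ.ne', mul_one]
  linarith

/-! ### The operator -/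

section operator

variable (𝕜 : Type) [RCLike 𝕜]

open Pool.Agent.X204

/-- The coefficient of `T^j e_{i,k}`. -/
noncomputable def R (i k j : ℕ) : ℝ := if k + j ≤ N i ∨ j = 0 then W i (k + j) / W i k else 0

theorem R_zero (i k : ℕ) : R i k 0 = 1 := by
  unfold R
  rw [if_pos (Or.inr rfl), add_zero, div_self (W_pos i k).ne']

theorem R_succ (i k j : ℕ) : R i k 1 * R i (k + 1) j = R i k (j + 1) := by
  unfold R
  have h1 := (W_pos i (k + 1)).ne'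
  have h2 := (W_pos i k).ne'
  have h3 : k + 1 + j = k + (j + 1) := by ring
  rw [h3]
  by_cases h : k + (j + 1) ≤ N i
  · rw [if_pos (Or.inl (by omega)), if_pos (Or.inl h), if_pos (Or.inl h)]
    field_simp
  · by_cases hj : j = 0
    · subst hj
      rw [if_neg (by omega)]
      ring
    · rw [if_neg (by omega : ¬ (k + (j + 1) ≤ N i ∨ j = 0)),
        if_neg (by omega : ¬ (k + (j + 1) ≤ N i ∨ j + 1 = 0))]
      ring

theorem abs_R_le {i k j : ℕ} (hj : j ≤ J i) : |R i k j| ≤ 2 := by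
  unfold R
  split_ifs with h
  · rw [abs_of_pos (div_pos (W_pos _ _) (W_pos _ _)), div_le_iff₀ (W_pos _ _)]
    exact W_add_le hj
  · simp

theorem norm_image_le (a : ℕ × ℕ) :
    ‖((R a.1 a.2 1 : ℝ) : 𝕜) • L1.e 𝕜 (a.1, a.2 + 1)‖ ≤ 2 := by
  rw [norm_smul, RCLike.norm_ofReal, L1.norm_e, mul_one]
  exact abs_R_le (J_pos _)

/-- The operator. -/
noncomputable def T : L1.E 𝕜 (ℕ × ℕ) →L[𝕜] L1.E 𝕜 (ℕ × ℕ) :=
  L1.lift (fun a : ℕ × ℕ => ((R a.1 a.2 1 : ℝ) : 𝕜) • L1.e 𝕜 (a.1, a.2 + 1)) 2 (norm_image_le 𝕜)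

theorem T_e (i k : ℕ) : T 𝕜 (L1.e 𝕜 (i, k)) = ((R i k 1 : ℝ) : 𝕜) • L1.e 𝕜 (i, k + 1) :=
  L1.lift_e _ _ _ _

theorem T_pow_e (j i k : ℕ) :
    ((T 𝕜) ^ j) (L1.e 𝕜 (i, k)) = ((R i k j : ℝ) : 𝕜) • L1.e 𝕜 (i, k + j) := by
  induction j generalizing k with
  | zero => rw [R_zero]; simp
  | succ j ih =>
    rw [pow_succ]
    change ((T 𝕜) ^ j) (T 𝕜 (L1.e 𝕜 (i, k))) = _
    rw [T_e, map_smul, ih, smul_smul, ← RCLike.ofReal_mul, R_succ]
    congr 3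
    ring

theorem norm_T_pow_le {n j : ℕ} (h1 : N n < j) (h2 : j ≤ J (n + 1)) (x : L1.E 𝕜 (ℕ × ℕ)) :
    ‖((T 𝕜) ^ j) x‖ ≤ 2 * ‖x‖ := by
  refine L1.norm_le_of_e _ (fun a => ?_) x
  obtain ⟨i, k⟩ := a
  rw [T_pow_e, norm_smul, RCLike.norm_ofReal, L1.norm_e, mul_one]
  by_cases hi : i ≤ n
  · have h3 : N i ≤ N n := N_mono hi
    unfold R
    rw [if_neg (by omega)]
    simp
  · refine abs_R_le (h2.trans (J_strictMono.monotone (by omega)))

/-- The subspace of vectors with null orbit. -/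
noncomputable def nullSpace : Submodule 𝕜 (L1.E 𝕜 (ℕ × ℕ)) where
  carrier := {x | Tendsto (fun n => ((T 𝕜) ^ n) x) atTop (𝓝 0)}
  zero_mem' := by
    simp only [Set.mem_ofPred_eq, map_zero]; exact tendsto_const_nhds
  add_mem' := fun {x y} hx hy => by
    simp only [Set.mem_ofPred_eq, map_add] at *
    simpa using hx.add hy
  smul_mem' := fun c x hx => by
    simp only [Set.mem_ofPred_eq, map_smul] at *
    simpa using hx.const_smul c

theorem nullSpace_dense : Dense (nullSpace 𝕜 : Set (L1.E 𝕜 (ℕ × ℕ))) := by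
  refine L1.dense_of_mem _ fun a => ?_
  obtain ⟨i, k⟩ := a
  change Tendsto (fun n => ((T 𝕜) ^ n) (L1.e 𝕜 (i, k))) atTop (𝓝 0)
  refine tendsto_const_nhds.congr' ?_
  filter_upwards [eventually_gt_atTop (N i)] with n hn
  rw [T_pow_e, R, if_neg (by omega)]
  simp

theorem null_along (x : L1.E 𝕜 (ℕ × ℕ)) {ε : ℝ} (hε : 0 < ε) :
    ∃ n₀ : ℕ, ∀ n, n₀ ≤ n → ∀ j, N n < j → j ≤ J (n + 1) → ‖((T 𝕜) ^ j) x‖ < ε := by
  obtain ⟨y, hy, hxy⟩ := Metric.mem_closure_iff.1 (nullSpace_dense 𝕜 x) (ε / 4) (by positivity)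
  have hy' : Tendsto (fun n => ((T 𝕜) ^ n) y) atTop (𝓝 0) := hy
  obtain ⟨n₀, hn₀⟩ := Metric.tendsto_atTop.1 hy' (ε / 2) (by positivity)
  refine ⟨n₀, fun n hn j hj1 hj2 => ?_⟩
  have h1 : n₀ ≤ j := hn.trans ((lt_J n).le.trans ((J_le_N n).trans hj1.le))
  have h2 := hn₀ j h1
  rw [dist_zero_right] at h2
  have h3 := norm_T_pow_le 𝕜 hj1 hj2 (x - y)
  rw [dist_eq_norm] at hxy
  have h4 : ((T 𝕜) ^ j) x = ((T 𝕜) ^ j) (x - y) + ((T 𝕜) ^ j) y := by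
    rw [← map_add, sub_add_cancel]
  rw [h4]
  calc ‖((T 𝕜) ^ j) (x - y) + ((T 𝕜) ^ j) y‖
      ≤ ‖((T 𝕜) ^ j) (x - y)‖ + ‖((T 𝕜) ^ j) y‖ := norm_add_le _ _
    _ < ε := by linarith

/-- The terms of the irregular vector. -/
noncomputable def zterm (i : ℕ) : L1.E 𝕜 (ℕ × ℕ) := (((1 / 2 : ℝ) ^ i : ℝ) : 𝕜) • L1.e 𝕜 (i, 0)

theorem summable_zterm : Summable (zterm 𝕜) := by
  refine Summable.of_norm_bounded (summable_geometric_two) fun i => ?_
  rw [zterm, norm_smul, RCLike.norm_ofReal, L1.norm_e, mul_one, abs_of_nonneg (by positivity)]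

/-- The irregular vector `z = ∑ 2^{-i} e_{i,0}`. -/
noncomputable def z : L1.E 𝕜 (ℕ × ℕ) := ∑' i, zterm 𝕜 i

theorem norm_T_pow_z {n j : ℕ} (h1 : K n ≤ j) (h2 : j ≤ N n) :
    (2 : ℝ) ^ n ≤ ‖((T 𝕜) ^ j) (z 𝕜)‖ := by
  have hA := (((T 𝕜) ^ j)).hasSum (summable_zterm 𝕜).hasSum
  have hB := (lp.evalCLM 𝕜 (fun _ : ℕ × ℕ => 𝕜) 1 (n, j)).hasSum hA
  have hC : (fun i => (lp.evalCLM 𝕜 (fun _ : ℕ × ℕ => 𝕜) 1 (n, j)) (((T 𝕜) ^ j) (zterm 𝕜 i))) =
      fun i => if i = n then (((1 / 2 : ℝ) ^ n * R n 0 j : ℝ) : 𝕜) else 0 := by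
    funext i
    change (((T 𝕜) ^ j) (zterm 𝕜 i)) (n, j) = _
    rw [zterm, map_smul, T_pow_e, smul_smul, zero_add, lp.coeFn_smul, Pi.smul_apply, smul_eq_mul]
    by_cases h : i = n
    · subst h
      rw [L1.e_self, if_pos rfl, mul_one, ← RCLike.ofReal_mul]
    · rw [L1.e_ne (by simp [Ne.symm h]), if_neg h, mul_zero]
  have hD : (((T 𝕜) ^ j) (z 𝕜)) (n, j) = (((1 / 2 : ℝ) ^ n * R n 0 j : ℝ) : 𝕜) := by
    have h3 : HasSum (fun i => if i = n then (((1 / 2 : ℝ) ^ n * R n 0 j : ℝ) : 𝕜) else 0)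
        ((((T 𝕜) ^ j) (z 𝕜)) (n, j)) := by
      rw [← hC]; exact hB
    exact h3.unique (hasSum_ite_eq n _)
  have hE := L1.norm_coord_le (((T 𝕜) ^ j) (z 𝕜)) (n, j)
  rw [hD, RCLike.norm_ofReal] at hE
  refine le_trans ?_ hE
  rw [R, if_pos (Or.inl (by omega)), zero_add, W_zero, div_one,
    abs_of_nonneg (mul_nonneg (by positivity) (W_pos _ _).le)]
  calc (2 : ℝ) ^ n = (1 / 2) ^ n * 4 ^ n := by rw [← mul_pow]; norm_num
    _ ≤ (1 / 2) ^ n * W n j := by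
      gcongr; exact W_large h1

end operator

/-! ### Densities -/

theorem lowerDensity_eq_zero {A : Set ℕ} (a b : ℕ → ℕ) (hab : ∀ n, a n * 4 ^ n ≤ b n)
    (hb : ∀ n, n ≤ b n)
    (h : ∃ n₀ : ℕ, ∀ n, n₀ ≤ n → ∀ j, j ∈ A → 1 ≤ j → j ≤ b n → j ≤ a n) :
    lowerDensity (fun n => (n : ℝ)) A = 0 := by
  obtain ⟨n₀, h⟩ := h
  by_contra hne
  have hpos : 0 < lowerDensity (fun n => (n : ℝ)) A := pos_iff_ne_zero.2 hne
  obtain ⟨δ, hδ0, hδ⟩ := ENNReal.lt_iff_exists_nnreal_btwn.1 hpos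
  refine absurd hδ (not_lt.2 ?_)
  refine liminf_le_of_frequently_le' ?_
  rw [frequently_atTop]
  intro c
  have hδ0' : (0 : ℝ) < δ := by exact_mod_cast hδ0
  obtain ⟨q, hq⟩ := exists_nat_gt (1 / (δ : ℝ))
  set n := max (max n₀ c) q with hn
  have hn0 : n₀ ≤ n := (le_max_left _ _).trans (le_max_left _ _)
  have hnc : c ≤ n := (le_max_right _ _).trans (le_max_left _ _)
  have hnq : q ≤ n := le_max_right _ _
  refine ⟨b n, hnc.trans (hb n), ?_⟩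
  have h1 : {j | j ∈ A ∧ 1 ≤ j ∧ (j : ℝ) ≤ ((b n : ℕ) : ℝ)}.ncard ≤ a n := by
    calc {j | j ∈ A ∧ 1 ≤ j ∧ (j : ℝ) ≤ ((b n : ℕ) : ℝ)}.ncard
        ≤ (Set.Icc 1 (a n)).ncard := by
          refine Set.ncard_le_ncard ?_ (Set.finite_Icc _ _)
          rintro j ⟨hjA, hj1, hjb⟩
          exact ⟨hj1, h n hn0 j hjA hj1 (by exact_mod_cast hjb)⟩
      _ = a n := by rw [← Finset.coe_Icc, Set.ncard_coe_finset, Nat.card_Icc]; omega
  have h2 : ((a n : ℕ) : ℝ) ≤ δ * b n := by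
    have h3 : ((a n : ℕ) : ℝ) * 4 ^ n ≤ b n := by exact_mod_cast hab n
    have h4 : (1 : ℝ) / δ < 4 ^ n := by
      have h5 : n < 4 ^ n := Nat.lt_pow_self (by norm_num)
      have h6 : (n : ℝ) < 4 ^ n := by exact_mod_cast h5
      have h7 : (q : ℝ) ≤ n := by exact_mod_cast hnq
      linarith
    rw [div_lt_iff₀ hδ0'] at h4
    have h8 : (0 : ℝ) ≤ a n := Nat.cast_nonneg _
    calc ((a n : ℕ) : ℝ) = a n * 1 := (mul_one _).symm
      _ ≤ a n * (4 ^ n * δ) := by gcongr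
      _ = δ * (a n * 4 ^ n) := by ring
      _ ≤ δ * b n := by gcongr
  refine ENNReal.div_le_of_le_mul ?_
  calc (({j | j ∈ A ∧ 1 ≤ j ∧ (j : ℝ) ≤ ((b n : ℕ) : ℝ)}.ncard : ℕ) : ℝ≥0∞)
      ≤ ((a n : ℕ) : ℝ≥0∞) := by exact_mod_cast h1
    _ ≤ (δ : ℝ≥0∞) * ((b n : ℕ) : ℝ≥0∞) := by
      have h9 : ((a n : ℕ) : NNReal) ≤ δ * ((b n : ℕ) : NNReal) := by
        rw [← NNReal.coe_le_coe]; push_cast; exact h2
      exact_mod_cast h9

theorem classR_J : ClassR (fun n => (J n : ℝ)) := by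
  refine ⟨fun a b h => ?_, fun n => ?_, ?_⟩
  · exact (Nat.cast_lt (α := ℝ)).2 (J_strictMono h)
  · exact Nat.one_le_cast.2 (J_pos n)
  refine zero_lt_one.trans_le (le_liminf_of_le (by isBoundedDefault) ?_)
  filter_upwards [eventually_gt_atTop 0] with n hn
  have h1 : (0 : ℝ) < n := by exact_mod_cast hn
  have h2 : (n : ℝ) ≤ J n := by exact_mod_cast (lt_J n).le
  rw [← ENNReal.ofReal_one]
  exact ENNReal.ofReal_le_ofReal ((one_le_div h1).2 h2)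

section main

variable (𝕜 : Type) [RCLike 𝕜]

theorem distChaotic_T : DistChaotic (fun n => (n : ℝ)) (T 𝕜) := by
  have hz : z 𝕜 ≠ 0 := by
    intro h
    have h1 := norm_T_pow_z 𝕜 (n := 0) (j := K 0) le_rfl (K_le_N 0)
    rw [h, map_zero, norm_zero] at h1
    norm_num at h1
  refine ⟨Set.range fun c : ℝ => (c : 𝕜) • z 𝕜, 1, ?_, one_pos, ?_⟩
  · intro hc
    have hinj : Function.Injective fun c : ℝ => (c : 𝕜) • z 𝕜 := by
      intro c d hcd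
      have := smul_left_injective 𝕜 hz hcd
      exact_mod_cast this
    have h1 := hc.preimage_of_injOn (f := fun c : ℝ => (c : 𝕜) • z 𝕜) hinj.injOn
    rw [Set.preimage_range] at h1
    exact Cardinal.not_countable_real h1
  · rintro _ ⟨c, rfl⟩ _ ⟨d, rfl⟩ hne
    have hcd : c - d ≠ 0 := by
      intro h
      apply hne
      rw [sub_eq_zero] at h
      simp only [h]
    have hdist : ∀ j, dist (((T 𝕜) ^ j) ((c : 𝕜) • z 𝕜)) (((T 𝕜) ^ j) ((d : 𝕜) • z 𝕜)) =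
        |c - d| * ‖((T 𝕜) ^ j) (z 𝕜)‖ := by
      intro j
      rw [dist_eq_norm, ← map_sub, ← sub_smul, map_smul, norm_smul, ← RCLike.ofReal_sub,
        RCLike.norm_ofReal]
    simp only [hdist]
    have habs : 0 < |c - d| := abs_pos.2 hcd
    constructor
    · refine lowerDensity_eq_zero K N (fun n => (K_mul n).le)
        (fun n => (lt_J n).le.trans (J_le_N n)) ?_
      obtain ⟨q, hq⟩ := exists_nat_gt (1 / |c - d|)
      refine ⟨q, fun n hn j hj _ hjN => ?_⟩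
      by_contra hlt
      push Not at hlt
      have h1 := norm_T_pow_z 𝕜 hlt.le hjN
      have h2 : (n : ℝ) < 2 ^ n := by exact_mod_cast (Nat.lt_two_pow_self : n < 2 ^ n)
      have h3 : (q : ℝ) ≤ n := by exact_mod_cast hn
      have h4 : 1 / |c - d| < ‖((T 𝕜) ^ j) (z 𝕜)‖ := by linarith
      rw [div_lt_iff₀ habs] at h4
      have h5 : |c - d| * ‖((T 𝕜) ^ j) (z 𝕜)‖ < 1 := hj
      linarith
    · intro ε hε
      refine lowerDensity_eq_zero N (fun n => J (n + 1)) N_mul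
        (fun n => (lt_J n).le.trans (J_strictMono.monotone (Nat.le_succ n))) ?_
      obtain ⟨n₀, hn₀⟩ := null_along 𝕜 (z 𝕜) (ε := ε / |c - d|) (by positivity)
      refine ⟨n₀, fun n hn j hj _ hjN => ?_⟩
      by_contra hlt
      push Not at hlt
      have h1 := hn₀ n hn j hlt hjN
      rw [lt_div_iff₀ habs] at h1
      have h5 : ε ≤ |c - d| * ‖((T 𝕜) ^ j) (z 𝕜)‖ := hj
      linarith

theorem not_distChaotic_T : ¬ DistChaotic (fun n => (J n : ℝ)) (T 𝕜) := by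
  rintro ⟨S, σ, hS, hσ, H⟩
  obtain ⟨x, hx, y, hy, hxy⟩ : S.Nontrivial := by
    by_contra h
    exact hS (Set.not_nontrivial_iff.1 h).finite.countable
  obtain ⟨h1, -⟩ := H x hx y hy hxy
  obtain ⟨n₀, hn₀⟩ := null_along 𝕜 (x - y) hσ
  have h2 : (1 / 2 : ℝ≥0∞) ≤ lowerDensity (fun n => (J n : ℝ))
      {j : ℕ | dist (((T 𝕜) ^ j) x) (((T 𝕜) ^ j) y) < σ} := by
    refine le_liminf_of_le (by isBoundedDefault) ?_
    filter_upwards [eventually_ge_atTop (2 * n₀ + 2)] with n hn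
    have hsub : (((Finset.Icc (n₀ + 1) n).image J : Finset ℕ) : Set ℕ) ⊆
        {j : ℕ | j ∈ {j : ℕ | dist (((T 𝕜) ^ j) x) (((T 𝕜) ^ j) y) < σ} ∧ 1 ≤ j ∧
          (j : ℝ) ≤ (J n : ℝ)} := by
      intro j hj
      rw [Finset.mem_coe, Finset.mem_image] at hj
      obtain ⟨k, hk, rfl⟩ := hj
      rw [Finset.mem_Icc] at hk
      refine ⟨?_, J_pos k, by exact_mod_cast J_strictMono.monotone hk.2⟩
      obtain ⟨l, rfl⟩ : ∃ l, k = l + 1 := ⟨k - 1, by omega⟩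
      have := hn₀ l (by omega) (J (l + 1)) (N_lt_J l) le_rfl
      rw [map_sub] at this
      change dist _ _ < σ
      rw [dist_eq_norm]
      exact this
    have hfin : {j : ℕ | j ∈ {j : ℕ | dist (((T 𝕜) ^ j) x) (((T 𝕜) ^ j) y) < σ} ∧ 1 ≤ j ∧
          (j : ℝ) ≤ (J n : ℝ)}.Finite := by
      refine (Set.finite_Iic (J n)).subset ?_
      rintro j ⟨-, -, hj⟩
      exact_mod_cast hj
    have h3 := Set.ncard_le_ncard hsub hfin
    rw [Set.ncard_coe_finset, Finset.card_image_of_injective _ J_strictMono.injective,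
      Nat.card_Icc] at h3
    have h4 : n ≤ 2 * {j : ℕ | j ∈ {j : ℕ | dist (((T 𝕜) ^ j) x) (((T 𝕜) ^ j) y) < σ} ∧ 1 ≤ j ∧
          (j : ℝ) ≤ (J n : ℝ)}.ncard := by omega
    have hn0 : (n : ℝ≥0∞) ≠ 0 := by
      have : n ≠ 0 := by omega
      exact_mod_cast this
    rw [ENNReal.le_div_iff_mul_le (Or.inl hn0) (Or.inl (ENNReal.natCast_ne_top n)),
      one_div, mul_comm, ← div_eq_mul_inv]
    refine ENNReal.div_le_of_le_mul ?_
    rw [mul_comm]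
    exact_mod_cast h4
  rw [h1] at h2
  simp at h2

end main

theorem result (𝕜 : Type) [RCLike 𝕜] :
    ∃ (X : Type) (_ : NormedAddCommGroup X) (_ : NormedSpace 𝕜 X) (_ : CompleteSpace X)
      (m : ℕ → ℝ) (T : X →L[𝕜] X), ClassR m ∧
      (∃ X₀ : Submodule 𝕜 X, Dense (X₀ : Set X) ∧
        ∀ x ∈ X₀, Tendsto (fun n => (T ^ n) x) atTop (𝓝 0)) ∧
      DistChaotic (fun n => (n : ℝ)) T ∧ ¬ DistChaotic m T :=
  ⟨Pool.Agent.X204.L1.E 𝕜 (ℕ × ℕ), inferInstance, inferInstance, inferInstance,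
    fun n => (J n : ℝ), T 𝕜, classR_J, ⟨nullSpace 𝕜, nullSpace_dense 𝕜, fun _ h => h⟩,
    distChaotic_T 𝕜, not_distChaotic_T 𝕜⟩

end Pool.Agent.Results.MP_890ea4_an.NotMnChaotic
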